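import Pool.Agent.J4H65.UP.Main

/-!
# Ultimate Positivity in `∀ℝ` for all linear recurrences which are not critical

The objects are those of `Pool.Agent.H612.LR` and `Pool.Agent.NPC`:
* an instance is a list `l` of pairs `(a_i, u_i)` of rational numbers (coefficients and initial
  values), `seq l` is the recurrence sequence, `bits l` the code of the instance;
* `UltPositive l`: all but finitely many terms are positive;
* `croots l`: the multiset of the characteristic roots; `Simple l`: no repeated roots;
* `InER L`: the language `L` belongs to `∃ℝ`; `lang P` is the language of the codes of the
  instances with the property `P`.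

The set `N` of the indices of the nonpositive terms has bounded gaps or upper Banach density zero,
for every recurrence. The second alternative is a problem in `∀ℝ`. It is equivalent to Ultimate
Positivity unless the recurrence is critical.

`Critical l` is a condition on the asymptotics: for some `ρ > 0` and `m ≥ 1`, the quotients
`u_n / (ρ^n (n+1)^m)` are bounded, do not tend to zero and have the lower limit zero along
arithmetic progressions whose differences are divisible by arbitrary integers. A critical
recurrence has multiple characteristic roots `z, w` of the same modulus, where `z/|z|` is a root of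
unity and `w/|w|` is none; so it has a triple of multiple roots, is not simple, and has
order at least `6`.

Proof. Along a residue class modulo a common exponent of the quotients of characteristic roots
which are roots of unity, `u_n / (ρ^n (n+1)^m)` is close to an almost periodic function `D`, a
nondegenerate exponential sum, unless all terms vanish. If `D` has a negative value then it has
negative values on a set with bounded gaps, and this case is recognised by an existential sentence
over the reals (certificates of the library `H612/LR`: a point of the closure of the orbit on a
torus, given by a hierarchy of numbers very close to `1`). If `D ≥ 0` then the nonpositive terms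
are at places where `D` is very small, and such places are rare: taking differences
`D(t+h) - x^h D(t)` removes one term `x^t` of an exponential sum. If moreover `m = 0`, then only
finitely many terms are nonpositive by the growth theorem of Evertse and of van der Poorten and
Schlickewei (proved in the library, from the subspace theorem). In the critical case the mean value
of `D ≥ 0` is a nonzero constant term of `D`, and `D` is not constant.
-/

set_option autoImplicit false

namespace Pool.Agent.Results.MP_dd7719_lc.AlmostEverywhere

open Pool.Agent.NPC Pool.Agent.NPC.ER Pool.Agent.H612.LR Pool.Agent.J4H65.UP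

/-- Membership in the class `∀ℝ`: the complement belongs to `∃ℝ`. -/
def InAR (L : Set (List Bool)) : Prop := InER Lᶜ

theorem critical_pos (l : Rec) (h : Critical l) : 1 ≤ l.length := by
  cases l with
  | nil =>
    exfalso
    obtain ⟨ρ, m, -, -, hq⟩ := h
    obtain ⟨a, b, -, -, -, hnt, -⟩ := hq 1 le_rfl
    apply hnt
    have : quo ([] : Rec) a b m ρ = fun _ => (0 : ℝ) := by
      funext t
      unfold quo
      rw [seq_nil]
      simp
    rw [this]
    exact tendsto_const_nhds
  | cons b t => simp

/-- **Ultimate Positivity outside the critical recurrences.**
(1) For every recurrence the set of the indices of the nonpositive terms has bounded gaps or upper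
Banach density zero. (2) It is a problem in `∀ℝ` whether this set has upper Banach density zero.
(3) For all recurrences which are not critical this is the same as Ultimate Positivity. (4) A
critical recurrence has two multiple characteristic roots `z, w` of the same modulus such that
`z/|z|` is a root of unity and `w/|w|` is not a root of unity. (5) In particular, simple recurrences
and recurrences of order at most `5` are not critical. -/
theorem result :
    (∀ l : Rec, BoundedGaps {n | seq l n ≤ 0} ∨ BanachNull {n | seq l n ≤ 0}) ∧
    InAR (lang fun l : Rec => BanachNull {n | seq l n ≤ 0}) ∧
    (∀ l : Rec, ¬ Critical l → (UltPositive l ↔ BanachNull {n | seq l n ≤ 0})) ∧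
    (∀ l : Rec, Critical l → ∃ z w : ℂ, 2 ≤ (croots l).count z ∧ 2 ≤ (croots l).count w ∧
      ‖z‖ = ‖w‖ ∧ (∃ k : ℕ, 1 ≤ k ∧ z ^ k = (‖z‖ : ℂ) ^ k) ∧
      ∀ k : ℕ, 1 ≤ k → w ^ k ≠ (starRingEnd ℂ w) ^ k) ∧
    (∀ l : Rec, Simple l ∨ l.length ≤ 5 → ¬ Critical l) := by
  obtain ⟨f, hf, hw, h⟩ := main_str
  have hiff : ∀ l : Rec, BanachNull {n | seq l n ≤ 0} ↔ ¬ ETR (f (bits l)) := fun l =>
    ⟨fun hn he => ((h l).1 he).not_null hn, fun he => ((h l).2 he).1⟩
  refine ⟨fun l => ?_, ⟨f, hf, fun w => ?_⟩, fun l hl => ⟨fun hu => ?_, fun hn => ?_⟩,
    fun l hc => critical_roots l (critical_pos l hc) hc, fun l hs hc => ?_⟩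
  · by_cases he : ETR (f (bits l))
    · exact Or.inl ((h l).1 he)
    · exact Or.inr ((h l).2 he).1
  · constructor
    · intro hmem
      by_cases hc : ∃ l : Rec, bits l = w
      · obtain ⟨l, rfl⟩ := hc
        by_contra he
        exact hmem ⟨l, rfl, (hiff l).2 he⟩
      · push Not at hc
        exact hw w hc
    · rintro he ⟨l, rfl, hn⟩
      exact (hiff l).1 hn he
  · obtain ⟨N, hN⟩ := hu
    exact BanachNull.of_finite N fun n hn hmem => absurd (hN n hn) (not_lt.2 hmem)
  · exact ((h l).2 ((hiff l).1 hn)).2 hl
  · rcases hs with hs | hs
    · exact critical_not_simple l (critical_pos l hc) hc hs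
    · have := critical_order l (critical_pos l hc) hc
      omega

end Pool.Agent.Results.MP_dd7719_lc.AlmostEverywhere
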