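import Pool.Agent.J4H65.GP.Main

/-!
# Positivity belongs to `∀ℝ` up to rare and ill-conditioned instances

The objects are those of `Pool.Agent.H612.LR` and `Pool.Agent.NPC`:
* an instance is a list `l` of pairs `(a_i, u_i)` of rational numbers (coefficients and initial
  values), `seq l` is the recurrence sequence, `bits l` the code of the instance, `sz l` its size
  (the number of the binary digits of the data);
* `Positive l`: all terms are positive; `croots l`: the multiset of the characteristic roots;
* `NonTight0 l`: for some `ρ > 0` the quotients `u_n / ρ^n` are bounded and their lower limit is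
  not zero;
* `InER L`: the language `L` belongs to `∃ℝ`; `lang P` is the language of the codes of the
  instances with the property `P`.

The definitions of `Separated`, `Regular` (in `Pool.Agent.J4H65.GP.Reg`), `Margin`
(`Pool.Agent.J4H65.GP.Exact`), `Near`, `inst` (`Pool.Agent.J4H65.GP.Bad`), `box`
(`Pool.Agent.J4H65.GP.Count`) and `BoundedGaps` (`Pool.Agent.J4H65.UP.Dens`) are used in the
statement.

Proof. `S` consists of the instances whose first `2^(C s^C)` terms are positive and for which the
set of the nonpositive terms has upper Banach density zero (and of which the library reduction does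
not certify failure). Let `ρ` be the largest modulus of the characteristic roots and `M + 1` the
largest multiplicity of the roots of modulus `ρ`. Then `u_n / (C(n,M) ρ^(n-M)) = D_n(v) + E_n`,
where the exponential sum `D_n(v)` depends linearly on the initial values `v`, and
`|E_n| ≤ 2^poly / n` for `n ≥ 2^poly`: the coefficients are bounded since the confluent Vandermonde
determinant of the characteristic roots is, up to a power of the common denominator of the
coefficients, the square root of a nonzero integer; different moduli of characteristic roots have a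
gap `2^(-poly)`. Density zero implies `D_n(v) ≥ 0` for all `n` by almost periodicity. An error has a
term `u_n ≤ 0` with `n ≥ 2^(C s^C)`, hence a very small value `D_n(v)`. If `ρ` is a characteristic
root of multiplicity `M + 1` then `D_n(w) = 1` for the vector `w` of the initial values of
`C(n,M) ρ^(n-M)`, so that the functional `D_n` has a coordinate of absolute value at least
`2^(-poly)` and becomes negative when this coordinate of `v` is changed by one. Otherwise `D_n`
has the mean value zero and is therefore identically zero. So the exceptional `v` are next to the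
boundary of a convex cone, with at most two of them on each line parallel to a suitable axis.
For separated and for regular instances `D_n` is a constant, a coefficient of the exponential
polynomial, and nonzero coefficients are at least `2^(-poly)` by taking a norm. A recurrence which
is not separated satisfies `λ_i λ_j = λ_p λ_q` for some characteristic roots with
`{i,j} ≠ {p,q}`, a polynomial equation for the coefficients.
-/

set_option autoImplicit false

namespace Pool.Agent.Results.MP_dd7719_lc.GenericPositivity

open Pool.Agent.NPC Pool.Agent.NPC.ER Pool.Agent.H612.LR Pool.Agent.J4H65.UP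
open Pool.Agent.J4H65.GP

/-- Membership in the class `∀ℝ`: the complement belongs to `∃ℝ`. -/
def InAR (L : Set (List Bool)) : Prop := InER Lᶜ

theorem sep_inst {k : ℕ} (a : Fin k → ℚ) (v : Fin k → ℤ) (h : Separated (inst a 0)) :
    Separated (inst a v) := by
  have e : croots (inst a v) = croots (inst a 0) := by
    unfold croots chi
    rw [length_inst, length_inst, coef_inst a v 0]
  unfold Separated at h ⊢
  rw [e]
  exact h

open Classical in
/-- **Positivity up to rare and ill-conditioned instances.** For every `d` there is a problem `S`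
in `∀ℝ` which contains all positive instances, and whose members `l`, of size `s`, have positive
first `2^(d s^d)` terms and nonpositive terms of upper Banach density zero, such that a member `l`
of `S` which is not positive (an error)
(1) is not separated, not regular, not in `NonTight0`, and has no margin `2^(-d s^d)`;
(2) has an instance within `2^(-d s^d)` (same coefficients, close initial values) whose nonpositive
terms have bounded gaps;
(3) for all coefficients `a`, at most `2k(2R+1)^(k-1)` vectors of integral initial values in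
`[-R, R]^k` give an error;
(4) at most `c_k ((2H+1)(2R+1))^(k-1)` instances of order `k` with integral coefficients in
`[-H, H]` and integral initial values in `[-R, R]` are errors. -/
theorem result (d : ℕ) : ∃ S : Set Rec,
    InAR (lang fun l : Rec => l ∈ S) ∧
    (∀ l : Rec, Positive l → l ∈ S) ∧
    (∀ l ∈ S, (∀ n < 2 ^ (d * Pool.Agent.H612.LR.sz l ^ d), 0 < seq l n) ∧
      BanachNull {n | seq l n ≤ 0}) ∧
    (∀ l ∈ S, ¬ Positive l → ¬ Separated l ∧ ¬ Regular l ∧ ¬ NonTight0 l ∧
      ¬ Margin l (1 / 2 ^ (d * Pool.Agent.H612.LR.sz l ^ d))) ∧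
    (∀ l ∈ S, ¬ Positive l → ∃ l' : Rec, Near (1 / 2 ^ (d * Pool.Agent.H612.LR.sz l ^ d)) l l' ∧
      BoundedGaps {n | seq l' n ≤ 0}) ∧
    (∀ (k : ℕ) (a : Fin k → ℚ) (R : ℕ),
      ((box k R).filter fun v => inst a v ∈ S ∧ ¬ Positive (inst a v)).card ≤
        2 * k * (2 * R + 1) ^ (k - 1)) ∧
    (∀ k : ℕ, ∃ c : ℕ, ∀ H R : ℕ,
      ((box k H ×ˢ box k R).filter fun q => inst (fun i => (q.1 i : ℚ)) q.2 ∈ S ∧
        ¬ Positive (inst (fun i => (q.1 i : ℚ)) q.2)).card ≤
          c * ((2 * H + 1) * (2 * R + 1)) ^ (k - 1)) := by
  obtain ⟨A1, hA1⟩ := bad_count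
  obtain ⟨A2, hA2⟩ := near_gaps
  obtain ⟨A3, hA3⟩ := margin_exact
  obtain ⟨A4, hA4⟩ := const_exact
  obtain ⟨f, hf, h⟩ := typed (A1 + A2 + A3 + A4 + d)
  set C := A1 + A2 + A3 + A4 + d with hC
  set S : Set Rec := {l | l ≠ [] ∧ ¬ ETR (f l)} with hS
  have hlen : ∀ l ∈ S, 1 ≤ l.length := fun l hl => List.length_pos_iff.2 hl.1
  have hin : ∀ l ∈ S, BanachNull {n | seq l n ≤ 0} ∧
      (∀ n < 2 ^ (C * Pool.Agent.H612.LR.sz l ^ C), 0 < seq l n) ∧ (NonTight0 l → Positive l) :=
    fun l hl => (h l hl.1).2 hl.2
  have hex : ∀ l ∈ S, ¬ Positive l →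
      ∃ n, 2 ^ (C * Pool.Agent.H612.LR.sz l ^ C) ≤ n ∧ seq l n ≤ 0 := by
    intro l hl hnp
    unfold Positive at hnp
    push Not at hnp
    obtain ⟨n, hn⟩ := hnp
    refine ⟨n, ?_, hn⟩
    by_contra hcon
    exact absurd ((hin l hl).2.1 n (not_le.1 hcon)) (not_lt.2 hn)
  have hle : ∀ s : ℕ, 2 ^ (d * s ^ d) ≤ 2 ^ (C * s ^ C) := by
    intro s
    refine Nat.pow_le_pow_right (by norm_num) ?_
    rcases Nat.eq_zero_or_pos s with h0 | h0
    · rcases Nat.eq_zero_or_pos d with h1 | h1
      · rw [h1, zero_mul]
        exact Nat.zero_le _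
      · rw [h0, zero_pow (by omega), mul_zero]
        exact Nat.zero_le _
    · exact Nat.mul_le_mul (by omega) (Nat.pow_le_pow_right h0 (by omega))
  have hcnt : ∀ (k : ℕ) (a : Fin k → ℚ) (R : ℕ),
      ((box k R).filter fun v => inst a v ∈ S ∧ ¬ Positive (inst a v)).card ≤
        2 * k * (2 * R + 1) ^ (k - 1) := by
    intro k a R
    refine (Finset.card_le_card ?_).trans (hA1 C (by omega) k a R)
    intro v hv
    obtain ⟨hv1, hv2, hv3⟩ := Finset.mem_filter.1 hv
    exact Finset.mem_filter.2 ⟨hv1, (hin _ hv2).1, hex _ hv2 hv3⟩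
  refine ⟨S, to_str f hf, fun l hp => ⟨?_, fun he => ?_⟩, fun l hl =>
    ⟨fun n hn => (hin l hl).2.1 n (lt_of_lt_of_le hn (hle _)), (hin l hl).1⟩,
    fun l hl hnp => ⟨fun hs => ?_,
    fun hr => ?_, fun hn => hnp ((hin l hl).2.2 hn), fun hm => ?_⟩, fun l hl hnp => ?_,
    fun k a R => ?_, fun k => ?_⟩
  · rintro rfl
    have := hp 0
    rw [seq_nil] at this
    exact lt_irrefl _ this
  · have hne : l ≠ [] := by
      rintro rfl
      have := hp 0
      rw [seq_nil] at this
      exact lt_irrefl _ this
    exact (h l hne).1 he hp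
  · exact hnp (hA4 C (by omega) l (hlen l hl) (hin l hl).1 (Or.inl hs) (hin l hl).2.1)
  · exact hnp (hA4 C (by omega) l (hlen l hl) (hin l hl).1 (Or.inr hr) (hin l hl).2.1)
  · exact hnp (hA3 d C (by omega) l (hlen l hl) hm (hin l hl).2.1)
  · exact hA2 d C (by omega) l (hlen l hl) (hin l hl).1 (hex l hl hnp)
  · convert hcnt k a R
  · obtain ⟨c, hc⟩ := nonsep_count k
    refine ⟨c * (2 * k), fun H R => ?_⟩
    have hsub : ((box k H ×ˢ box k R).filter fun q => inst (fun i => (q.1 i : ℚ)) q.2 ∈ S ∧
        ¬ Positive (inst (fun i => (q.1 i : ℚ)) q.2)) ⊆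
        ((box k H).filter fun a => ¬ Separated (inst (fun i => (a i : ℚ)) 0)).biUnion fun a =>
          ((box k R).filter fun v => inst (fun i => (a i : ℚ)) v ∈ S ∧
            ¬ Positive (inst (fun i => (a i : ℚ)) v)).image fun v => (a, v) := by
      rintro ⟨a, v⟩ hq
      obtain ⟨h1, h2, h3⟩ := Finset.mem_filter.1 hq
      obtain ⟨ha, hv⟩ := Finset.mem_product.1 h1
      rw [Finset.mem_biUnion]
      refine ⟨a, Finset.mem_filter.2 ⟨ha, fun hs => ?_⟩, Finset.mem_image.2 ⟨v,
        Finset.mem_filter.2 ⟨hv, h2, h3⟩, rfl⟩⟩
      exact h3 (hA4 C (by omega) _ (hlen _ h2) (hin _ h2).1 (Or.inl (sep_inst _ v hs))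
        (hin _ h2).2.1)
    refine le_trans (le_trans (le_of_eq (by congr!)) (Finset.card_le_card hsub)) ?_
    calc _ ≤ ∑ a ∈ (box k H).filter fun a => ¬ Separated (inst (fun i => (a i : ℚ)) 0),
          (((box k R).filter fun v => inst (fun i => (a i : ℚ)) v ∈ S ∧
            ¬ Positive (inst (fun i => (a i : ℚ)) v)).image fun v => (a, v)).card :=
          Finset.card_biUnion_le
      _ ≤ ∑ _a ∈ (box k H).filter fun a => ¬ Separated (inst (fun i => (a i : ℚ)) 0),
          2 * k * (2 * R + 1) ^ (k - 1) :=
          Finset.sum_le_sum fun a _ => Finset.card_image_le.trans (hcnt k _ R)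
      _ ≤ (c * (2 * H + 1) ^ (k - 1)) * (2 * k * (2 * R + 1) ^ (k - 1)) := by
          rw [Finset.sum_const, smul_eq_mul]
          exact Nat.mul_le_mul_right _ (hc H)
      _ = c * (2 * k) * ((2 * H + 1) * (2 * R + 1)) ^ (k - 1) := by
          rw [mul_pow]
          ring

end Pool.Agent.Results.MP_dd7719_lc.GenericPositivity
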