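import Pool.Agent.J4H65.RO.Wave

/-!
# Ultimate Positivity in `∀ℝ` for critical recurrences of rank one

The objects are those of `Pool.Agent.H612.LR` and `Pool.Agent.NPC`:
* an instance is a list `l` of pairs `(a_i, u_i)` of rational numbers (coefficients and initial
  values), `seq l` is the recurrence sequence, `bits l` the code of the instance;
* `UltPositive l`: all but finitely many terms are positive;
* `croots l`: the multiset of the characteristic roots;
* `InER L`: the language `L` belongs to `∃ℝ`; `lang P` is the language of the codes of the
  instances with the property `P`.

`Critical l` (in `Pool.Agent.J4H65.UP.Crit`), `BanachNull` (`Pool.Agent.J4H65.UP.Dens`), `RankOne l`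
(`Pool.Agent.J4H65.RO.Snd2`), `DCAt`, `DoublyCritical l` (`Pool.Agent.J4H65.RO.Dc`) and `WaveType l`
(`Pool.Agent.J4H65.RO.Wave`) are used in the statement.

Proof. Along a residue class modulo a common exponent of the quotients of characteristic roots
which are roots of unity, `u_n = ρ^n (C(n,m) φ(n) + C(n,m-1) ψ(n) + O(n^(m-2)))` with exponential
sums `φ`, `ψ`. If `φ` has a negative value then infinitely many terms are negative, which has an
existential certificate over the reals (library `H612/LR`). Let `φ ≥ 0` and `m ≥ 1`. A second
existential formula says that at some point `z` of the closure of the orbit on the torus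
`φ(z) ≤ 0` and `ψ(z) < 0`. If it holds and the recurrence has rank one then infinitely many terms
are negative: the orbit approaches `z` with error `O(1/n)` infinitely often (continued fractions),
and there `φ = O(1/n²)` since a nonnegative exponential sum with a zero `z` satisfies
`φ(n) ≤ ∑ |c_i| |x_i^n - z_i|²` (compare the values at points symmetric with respect to `z`). If
it holds and the recurrence is ultimately positive then the recurrence is critical. If there is no
certificate then `ψ` is nearly nonnegative where `φ` is small; the terms are positive from some
place on if `ψ` is bounded from below by a positive number where `φ` is small, or if `m = 1` and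
`ψ + C φ ≥ 0` from some place on (growth theorem of Evertse and of van der Poorten and
Schlickewei, proved in the library from the subspace theorem); otherwise the class is doubly
critical. For order at most `7` a critical recurrence has the roots `±ρ, w, w̄`, twice each, and
at most one more real root; `φ` and `ψ` are trigonometric polynomials of degree one with a common
zero, which is a double zero of `φ`, and not of `ψ`.
-/

set_option autoImplicit false

namespace Pool.Agent.Results.MP_dd7719_lc.RankOneCritical

open Pool.Agent.NPC Pool.Agent.NPC.ER Pool.Agent.H612.LR Pool.Agent.J4H65.UP
open Pool.Agent.J4H65.RO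

/-- Membership in the class `∀ℝ`: the complement belongs to `∃ℝ`. -/
def InAR (L : Set (List Bool)) : Prop := InER Lᶜ

/-- **Ultimate Positivity for critical recurrences of rank one.** There is a problem `S` in `∀ℝ`
with the following relation to Ultimate Positivity. For the instances in `S` the nonpositive terms
have upper Banach density zero. An instance in `S` which is not ultimately positive is critical and
doubly critical, and if its order is at most `7` then it belongs to the explicit family `WaveType`.
An ultimately positive instance outside `S` is critical and has not rank one, and its order is at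
least `8`. -/
theorem result : ∃ S : Set Rec, InAR (lang fun l : Rec => l ∈ S) ∧
    (∀ l ∈ S, BanachNull {n | seq l n ≤ 0}) ∧
    (∀ l ∈ S, ¬ UltPositive l → Critical l ∧ DoublyCritical l ∧ (l.length ≤ 7 → WaveType l)) ∧
    (∀ l : Rec, UltPositive l → l ∉ S → Critical l ∧ ¬ RankOne l ∧ 8 ≤ l.length) := by
  obtain ⟨f, hf, h⟩ := main2
  have hlen : ∀ l : Rec, l ≠ [] → 1 ≤ l.length := fun l hl => List.length_pos_iff.2 hl
  have hnil : ¬ UltPositive ([] : Rec) := by
    rintro ⟨N, hN⟩
    have := hN N le_rfl
    rw [seq_nil] at this
    exact lt_irrefl _ this
  refine ⟨{l | l ≠ [] ∧ ¬ ETR (f l)}, Pool.Agent.J4H65.GP.to_str f hf,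
    fun l hl => ((h l hl.1).2 hl.2).1, fun l hl hnu => ?_, fun l hu hl => ?_⟩
  · have hd : DCData l := ((h l hl.1).2 hl.2).2.resolve_left hnu
    exact ⟨critical_of_doubly l (doubly_of_data hd), doubly_of_data hd,
      fun h7 => wave_of_data l (hlen l hl.1) h7 hd⟩
  · have hne : l ≠ [] := by
      rintro rfl
      exact hnil hu
    have he : ETR (f l) := by
      by_contra he
      exact hl ⟨hne, he⟩
    have hc : Critical l := by
      by_contra hc
      exact (h l hne).1 he (Or.inr hc) hu
    have hR : ¬ RankOne l := fun hR => (h l hne).1 he (Or.inl hR) hu
    refine ⟨hc, hR, ?_⟩
    by_contra h8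
    exact hR (rankOne_of_order l (hlen l hne) (by omega) hc)

end Pool.Agent.Results.MP_dd7719_lc.RankOneCritical
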